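import Mathlib
import Pool.Agent.N181.TF.Mod

/-!
# Abelian varieties over `k(s)` in odd coverings of the line: Mordell-Weil groups and Sha

`k` is a field of characteristic different from `2`, for example a finite field. Let `A` be an abelian
variety over `k(s)`, of any dimension, with good reduction at the finite places which do not divide
`D ∈ k[s]`, such that the image of the Galois group in `Aut A[2]` is a `2`-group (for example an elliptic
curve with a rational point of order two, or the Jacobian of `y² = f(x)` where `f` splits). There is no
condition on the bad reduction at infinity and at the places which divide `D`. Let `s = q(t)` be a polynomial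
of odd degree `n`, `q' ≠ 0`, with one point of the `t`-line above each point of `D = 0` as closed points over
`k`, with odd ramification index (`OnePt`: inert or totally ramified, or in between).

**Theorem.** (1) For each `P ∈ A(k(t))` there is a `P₀ ∈ A(k(s))` (the trace of `P`) such that `n P - P₀` is
infinitely `2`-divisible in `A(k'(t))`, `k'` a separable closure of `k`. (2) If `A(k'(t))` is finitely generated
(by the theorem of Lang and Néron this holds if the trace of `A` is zero) then there is an odd `N` with
`N A(k(t)) ⊂ A(k(s))`: **the index of `A(k(s))` in `A(k(t))` is finite and odd, the rank does not grow**. (3) If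
the classes over `k'(s)`, fixed by the Galois group of `k`, come from the points over `k(s)`, this holds over
`k(t)`: for finite `k`, **if the 2-primary part of `Sha(A / k(s))` is finite then that of `Sha(A / k(t))` is
finite** (and then `Sha` is finite and the rank of `A` over `k(t)`, which is the rank over `k(s)`, is the order of
vanishing of the L-function, by the theorems of Tate, Milne, Kato and Trihan). (4) Over finite fields there
are infinite towers of such coverings, for each `D` which splits.

In the Lean statement the points `A(Ω)`, `Ω` a separable closure of `k'(t)`, are given as a module `M` of the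
Galois group of `k(s)` with the properties in `IsMod`: `M` is a discrete module and `2`-divisible, the Tate
module `T₂ M` is free of rank `r`, with a continuous action, lower triangular modulo `2` in a basis (this
is the condition on `A[2]`), and a point is fixed by an element of the geometric decomposition group at a
place of good reduction if its double is.

For finite `k` the group of `Gal(k)`-invariant classes of `V₂ A` over `k'(s)` unramified outside `D ∞` is
`V₂ Sel(A / k(s))`, since the groups `H¹(K_v, V₂ A)` vanish (this is not formalised).
-/

set_option autoImplicit false
set_option linter.all false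

open Polynomial
open scoped Classical

namespace Pool.Agent.Results.MP_72e2e6_nt.AbelianVarietiesOddCoverings

open Pool.Agent.N181.TF (OnePt onePt_pow towers)
open Pool.Agent.N181.TF.St (NoNewPoints noNewPoints)

theorem result :
    -- the theorem
    (∀ (k : Type) [Field k] (q D : k[X]), (2 : k) ≠ 0 → derivative q ≠ 0 → Odd q.natDegree →
      D ≠ 0 → OnePt D q → NoNewPoints q D) ∧
    -- infinite towers over finite fields
    (∀ (k : Type) [Field k] [Finite k] (D : k[X]), (2 : k) ≠ 0 → D ≠ 0 → D.Splits → ∀ ℓ : ℕ,
      ℓ.Prime → ℓ ≠ 2 → D.natDegree < ℓ → ℓ ∣ Nat.card k - 1 → D.natDegree * ℓ < Nat.card k →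
      ∃ c : k, ∀ j : ℕ, NoNewPoints (X ^ ℓ ^ j + C c) D) := by
  refine ⟨?_, ?_⟩
  · intro k _ q D h2 hq hodd hD hO
    exact noNewPoints h2 hq hodd hD hO
  · intro k _ _ D h2 h0 hs ℓ hℓ hℓ2 hdeg hd hq
    obtain ⟨c, hc⟩ := towers h0 hs hℓ hℓ2 hdeg hd hq
    have hk : (ℓ : k) ≠ 0 := by
      intro h
      letI := Fintype.ofFinite k
      have hcard : Nat.card k = Fintype.card k := Nat.card_eq_fintype_card
      have hk1 : 1 < Nat.card k := by rw [hcard]; exact Fintype.one_lt_card
      have h1 : ((Nat.card k : ℕ) : k) = 0 := by
        rw [Nat.card_eq_fintype_card]
        exact FiniteField.cast_card_eq_zero k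
      obtain ⟨m, hm⟩ := hd
      have h3 : Nat.card k = ℓ * m + 1 := by omega
      rw [h3, Nat.cast_add, Nat.cast_mul, h, zero_mul, zero_add, Nat.cast_one] at h1
      exact one_ne_zero h1
    refine ⟨c, fun j => noNewPoints h2 ?_ ?_ h0 (hc j)⟩
    · rw [derivative_add, derivative_C, add_zero, derivative_X_pow]
      refine mul_ne_zero (C_ne_zero.2 ?_) (pow_ne_zero _ X_ne_zero)
      rw [Nat.cast_pow]
      exact pow_ne_zero _ hk
    · rw [natDegree_X_pow_add_C]
      exact (hℓ.odd_of_ne_two hℓ2).pow

end Pool.Agent.Results.MP_72e2e6_nt.AbelianVarietiesOddCoverings
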