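import Pool.Agent.N867.AS.Y20

/-!
# The order of vanishing and the leading coefficient at `s = 1` for Jacobians of curves
`y_j^p - y_j = f_j(x, t)`, `f_j ∈ k[x, t, 1/t]`, over the curves `z_i^p - z_i = h_i(t)`,
`h_i ∈ k[t, 1/t]`

All `f_j`, `h_i` are written as a polynomial divided by a fixed power `t^c`.
-/

set_option autoImplicit false

namespace Pool.Agent.Results.MP_72e2e6_nt.NewtonPolygons

open Polynomial

/-- The coefficient of `t^(u.1) x^(u.2)` in `f / t^c`, for `f ∈ k[x][t]` (outer variable `t`,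
inner variable `x`). -/
noncomputable def coeffAt {k : Type} [Field k] (f : k[X][X]) (c : ℕ) (u : ℤ × ℕ) : k :=
  if 0 ≤ u.1 + c then (f.coeff (u.1 + c).toNat).coeff u.2 else 0

/-- The determinant `D_i` of the vectors `V_i` and `V_{i+1}`. -/
def det (V : ℕ → ℤ × ℕ) (i : ℕ) : ℤ :=
  (V i).1 * (V (i + 1)).2 - (V i).2 * (V (i + 1)).1

/-- The linear form `l_i` with value `D_i` at `V_i` and at `V_{i+1}`. -/
def form (V : ℕ → ℤ × ℕ) (i : ℕ) (u : ℤ × ℕ) : ℤ :=
  u.1 * (((V (i + 1)).2 : ℤ) - (V i).2) - u.2 * ((V (i + 1)).1 - (V i).1)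

/-- The Newton polygon of `f / t^c` above the horizontal axis has the vertices
`V_0 = (B, 0), V_1, …, V_{n-1}, V_n = (-C, 0)` with `B, C > 0`, in this order; no exponents other
than `V_i` and `V_{i+1}` lie on the edge between these two, and `D_i` is positive and divides
`p - 1`. (An exponent `(a, b)` is that of a monomial `t^a x^b`.) -/
structure HasPolygon {k : Type} [Field k] (p c : ℕ) (f : k[X][X]) (n : ℕ) (V : ℕ → ℤ × ℕ) :
    Prop where
  first : (V 0).2 = 0 ∧ 0 < (V 0).1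
  last : (V n).2 = 0 ∧ (V n).1 < 0
  above : ∀ i, 0 < i → i < n → 0 < (V i).2
  size : ∀ i < n, 0 < det V i ∧ det V i ∣ ((p - 1 : ℕ) : ℤ)
  vertex : ∀ i ≤ n, coeffAt f c (V i) ≠ 0
  below : ∀ u, coeffAt f c u ≠ 0 → ∀ i < n, form V i u ≤ det V i ∧
    (form V i u = det V i → u = V i ∨ u = V (i + 1))

/-- The polynomial `c_{i+1} X^g + c_i` of the edge from `V_i` to `V_{i+1}`, where `c_i` is the
coefficient at `V_i` and `g` is the greatest common divisor of the coordinates of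
`V_{i+1} - V_i`. -/
noncomputable def edge {k : Type} [Field k] (c : ℕ) (f : k[X][X]) (V : ℕ → ℤ × ℕ) (i : ℕ) : k[X] :=
  C (coeffAt f c (V (i + 1))) *
    X ^ Int.gcd ((V (i + 1)).1 - (V i).1) (((V (i + 1)).2 : ℤ) - (V i).2) +
  C (coeffAt f c (V i))

/-- The number of irreducible factors. -/
noncomputable def numFactors {k : Type} [Field k] (P : k[X]) : ℕ :=
  (UniqueFactorizationMonoid.factors P).card

/-- The weight of `u`: the maximum of `0` and the `l_i(u) / D_i`, `0 ≤ i < n`. -/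
def weight (V : ℕ → ℤ × ℕ) (n : ℕ) (u : ℤ × ℕ) : ℚ :=
  (Finset.range n).fold max 0 fun i => (form V i u : ℚ) / (det V i : ℚ)

/-- The sum of `1 - weight(u)` over all `u ∈ ℤ × ℕ` with `u.2 > 0` and `weight(u) < 1`. -/
noncomputable def hodge (V : ℕ → ℤ × ℕ) (n : ℕ) : ℚ :=
  ∑ᶠ u ∈ {u : ℤ × ℕ | 0 < u.2 ∧ weight V n u < 1}, (1 - weight V n u)

/-- The value `h(t)` at an element `t` of an algebraic closure of `k`. -/
noncomputable def baseValue {k : Type} [Field k] (h : k[X]) (t : AlgebraicClosure k) :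
    AlgebraicClosure k :=
  h.eval₂ (algebraMap k (AlgebraicClosure k)) t

/-- The value `f(x, t)` at a point with coordinates in an algebraic closure of `k`. -/
noncomputable def value {k : Type} [Field k] (f : k[X][X]) (x t : AlgebraicClosure k) :
    AlgebraicClosure k :=
  f.eval₂ (eval₂RingHom (algebraMap k (AlgebraicClosure k)) x) t

/-- The number of `(t, z_1, …, z_r)` with coordinates in `F_Q = {z : z^Q = z}` such that `t ≠ 0`
and `(z_i^p - z_i) t^c = h_i(t)` for all `i`. -/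
noncomputable def basePoints {k : Type} [Field k] (p c : ℕ) {r : ℕ} (h : Fin r → k[X]) (Q : ℕ) :
    ℕ :=
  Nat.card {v : AlgebraicClosure k × (Fin r → AlgebraicClosure k) //
    v.1 ^ Q = v.1 ∧ v.1 ≠ 0 ∧ (∀ i, v.2 i ^ Q = v.2 i) ∧
    ∀ i, (v.2 i ^ p - v.2 i) * v.1 ^ c = baseValue (h i) v.1}

/-- The number of `(x, t, y_1, …, y_m, z_1, …, z_r)` with coordinates in `F_Q = {z : z^Q = z}`
such that `t ≠ 0`, `(y_j^p - y_j) t^c = f_j(x, t)` for all `j` and `(z_i^p - z_i) t^c = h_i(t)`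
for all `i`. -/
noncomputable def points {k : Type} [Field k] (p c : ℕ) {m r : ℕ} (f : Fin m → k[X][X])
    (h : Fin r → k[X]) (Q : ℕ) : ℕ :=
  Nat.card {v : AlgebraicClosure k × AlgebraicClosure k × (Fin m → AlgebraicClosure k) ×
      (Fin r → AlgebraicClosure k) //
    v.1 ^ Q = v.1 ∧ v.2.1 ^ Q = v.2.1 ∧ v.2.1 ≠ 0 ∧ (∀ j, v.2.2.1 j ^ Q = v.2.2.1 j) ∧
    (∀ i, v.2.2.2 i ^ Q = v.2.2.2 i) ∧
    (∀ j, (v.2.2.1 j ^ p - v.2.2.1 j) * v.2.1 ^ c = value (f j) v.1 v.2.1) ∧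
    (∀ i, (v.2.2.2 i ^ p - v.2.2.2 i) * v.2.1 ^ c = baseValue (h i) v.2.1)}

/-- The power series `∑_{n ≥ 1} (q^n S_n - N_n) T^n`, where `q = #k`,
`S_n = basePoints p c h (q^n)` and `N_n = points p c f h (q^n)`. -/
noncomputable def traces {k : Type} [Field k] [Fintype k] (p c : ℕ) {m r : ℕ}
    (f : Fin m → k[X][X]) (h : Fin r → k[X]) : PowerSeries ℚ :=
  PowerSeries.mk fun n => if n = 0 then 0 else
    ((Fintype.card k : ℚ) ^ n * (basePoints p c h (Fintype.card k ^ n) : ℚ) -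
      (points p c f h (Fintype.card k ^ n) : ℚ))

/-- `L(T) = exp (∑_{n ≥ 1} (q^n S_n - N_n) T^n / n)`: that is, `L(0) = 1` and
`T L' = L ∑_{n ≥ 1} (q^n S_n - N_n) T^n`. -/
def IsLFunction {k : Type} [Field k] [Fintype k] (p c : ℕ) {m r : ℕ} (f : Fin m → k[X][X])
    (h : Fin r → k[X]) (L : ℚ[X]) : Prop :=
  L.coeff 0 = 1 ∧
    PowerSeries.X * PowerSeries.derivative ℚ (L : PowerSeries ℚ) =
      (L : PowerSeries ℚ) * traces p c f h

/-- The pairs `(a, b)` of vectors `a ∈ {0, …, p - 1}^m`, `b ∈ {0, …, p - 1}^r` with `a ≠ 0`. -/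
abbrev Index (p m r : ℕ) : Type :=
  {v : (Fin m → Fin p) × (Fin r → Fin p) // ∃ j, (v.1 j : ℕ) ≠ 0}

/-- `∑ a_j f_j(x, t) + ∑ b_i h_i(t)`. -/
noncomputable def comb {k : Type} [Field k] {p m r : ℕ} (f : Fin m → k[X][X]) (h : Fin r → k[X])
    (v : Index p m r) : k[X][X] :=
  ∑ j, ((v.1.1 j : ℕ) : k[X][X]) * f j + ∑ i, ((v.1.2 i : ℕ) : k[X][X]) * (h i).map C

/-- For every combination `f_v = ∑ a_j f_j + ∑ b_i h_i` with `a ≠ 0` let `f_v / t^c` have a Newton
polygon with `n_v` edges, the `i`-th with the polynomial `E_{v,i}`, as in `HasPolygon`. Write the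
`L`-function of the Jacobian of the curve `y_j^p - y_j = f_j(x, t) / t^c` over the function field
of `z_i^p - z_i = h_i(t) / t^c` as `L = (1 - q T)^ρ M` with `M(1/q) ≠ 0`, and put `q = p^s`,
`R = ∑_v (∑_i e_{v,i} - 2)`, where `e_{v,i}` is the number of irreducible factors of `E_{v,i}`,
and `N = s ∑_v hodge(V_v)`. Then `ρ ≤ R` and `v_p(M(1/q)) ≥ -N`, with equality if and only if
`ρ = R`. -/
theorem result (p : ℕ) (hp : p.Prime) (k : Type) [Field k] [Fintype k] [CharP k p] (s : ℕ)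
    (hs : Fintype.card k = p ^ s) (c : ℕ) (hc : c ≠ 0) (m r : ℕ) (f : Fin m → k[X][X])
    (h : Fin r → k[X]) (n : Index p m r → ℕ) (V : Index p m r → ℕ → ℤ × ℕ)
    (hf : ∀ v, HasPolygon p c (comb f h v) (n v) (V v))
    (L : ℚ[X]) (hL : IsLFunction p c f h L) (ρ : ℕ) (M : ℚ[X])
    (hLM : L = (1 - C (Fintype.card k : ℚ) * X) ^ ρ * M)
    (hM : M.eval (1 / (Fintype.card k : ℚ)) ≠ 0) (R : ℕ)
    (hR : R = ∑ v, (∑ i ∈ Finset.range (n v), numFactors (edge c (comb f h v) (V v) i) - 2)) :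
    ρ ≤ R ∧
      -((s : ℚ) * ∑ v, hodge (V v) (n v)) ≤
        (padicValRat p (M.eval (1 / (Fintype.card k : ℚ))) : ℚ) ∧
      ((padicValRat p (M.eval (1 / (Fintype.card k : ℚ))) : ℚ) =
        -((s : ℚ) * ∑ v, hodge (V v) (n v)) ↔ ρ = R) :=
  Pool.Agent.N867.AS.Pg.mainP p hp k s hs c hc m r f h n V
    (fun v => (hf v).first) (fun v => (hf v).last) (fun v => (hf v).above)
    (fun v => (hf v).size) (fun v => (hf v).vertex) (fun v => (hf v).below)
    L hL.1 hL.2 ρ M hLM hM hR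

end Pool.Agent.Results.MP_72e2e6_nt.NewtonPolygons
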