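import Mathlib
import Pool.Agent.N181.TD.Cover

/-!
# Polynomial coverings, ramified over a bad fibre, of the rational elliptic surfaces of full level two

`k` is a field of characteristic different from `2`, for example a finite field, and
`E₀ : y² = x (x - a) (x - b)` is an elliptic curve over `k(s)`, `a`, `b` polynomials of degree at most `2`
such that `a b (a - b)` is separable of degree five (`Full2`): the rational elliptic surfaces with full level
two and six fibres of type `I₂`, one of them at infinity (the five others may be conjugate). `E` is the
pullback of `E₀` by a polynomial map `s = q(t)` of ODD degree `n` with exactly one closed point above each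
of the five finite bad points, inert or ramified (`PolyCover`); above infinity `E` has a fibre of type
`I₂ₙ`. Then the Tate conjecture for divisors at the prime `2` holds for `E` over `L(t)`, for all finite
extensions `L` of `k` of degree prime to `n`. The geometric genus of these surfaces is `n - 1`, not bounded.
If `k` is finite, this means (Tate, Milne) that the Tate-Shafarevich group of `E` over `L(t)` is finite.

The coverings `s = λ tⁿ` are examples if the quotients `ξ / λ` are not `ℓ`-th powers, for the bad points
`ξ ≠ 0` and the primes `ℓ` dividing `n`. Over a finite field `k` such a `λ` exists for all the powers of a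
given prime divisor `ℓ` of `|k| - 1` which is larger than the number of the finite nonzero bad points (four or
five), if these are rational: `E₀` has finite Tate-Shafarevich groups over the fields
`k(s)((s / λ) ^ (1 / ℓ ^ j))`. If zero and infinity are bad points, these are towers of the type in which the
ranks can be unbounded over other constant fields (Ulmer).

The proof: over an extension `M` of `L` whose degree is a power of two there are linear polynomials `p`, `q₀`,
`r₀` with `a = p² - q₀²`, `b = p² - r₀²`, `p = α q₀ + β r₀`, and two independent points. The six forms are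
constants times odd powers of irreducible polynomials over `M`, or constant (at most one of them). There are
`2⁴` classes allowed by the local conditions; in each case, depending on the form which is constant, they are
the classes of combinations of the points (`Pool.Agent.N181.TD.gens2`). This gives the Tate conjecture over
`M(t)`, and then over `L(t)`.
-/

set_option autoImplicit false
set_option linter.all false

open Polynomial IsDedekindDomain WeierstrassCurve WeierstrassCurve.Affine
open scoped Classical

namespace Pool.Agent.Results.MP_72e2e6_nt.TowersRamifiedAtBadFibres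

open Pool.Agent.N181.TC (Full2)
open Pool.Agent.N181.TD
open Pool.Agent.N181.P8 (TateQ)
open Pool.Agent.TH115.GD (IsTower)

/-- The conclusion: the Tate conjecture at `2` over all the finite extensions `L` of `k` of degree prime
to the degree of `q`. -/
def Holds {k : Type} [Field k] (q a b : k[X]) : Prop :=
  ∀ (L L' K F : Type) [Field L] [Field L'] [Field K] [Field F]
    [Algebra k L] [FiniteDimensional k L] [Algebra L L']
    [Algebra L[X] K] [Algebra L'[X] F] [IsFractionRing L'[X] F] [Algebra K F],
    IsTower L L' K F → Nat.Coprime q.natDegree (Module.finrank k L) →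
    TateQ (F := F) 2 L' (surfP K (q.map (algebraMap k L)) (a.map (algebraMap k L))
      (b.map (algebraMap k L)))

theorem result :
    -- the coverings
    (∀ (k : Type) [Field k] (a b q : k[X]), Full2 a b → (a * b * (a - b)).natDegree = 5 →
      PolyCover q a b → Holds q a b) ∧
    -- the coverings `s = λ t ^ n`
    (∀ (k : Type) [Field k] (a b : k[X]), Full2 a b → (a * b * (a - b)).natDegree = 5 →
      (a * b * (a - b)).Splits → ∀ (n : ℕ) (lam : k), ¬ 2 ∣ n → (n : k) ≠ 0 → lam ≠ 0 →
        (∀ ξ, (a * b * (a - b)).IsRoot ξ → ξ = 0 ∨
          ∀ ℓ : ℕ, ℓ.Prime → ℓ ∣ n → ∀ y : k, y ^ ℓ ≠ ξ / lam) →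
        PolyCover (C lam * X ^ n) a b) ∧
    -- infinite towers over finite fields
    (∀ (k : Type) [Field k] [Finite k] (a b : k[X]), Full2 a b →
      (a * b * (a - b)).natDegree = 5 → (a * b * (a - b)).Splits → ∀ ℓ : ℕ, ℓ.Prime →
        ℓ ∣ Nat.card k - 1 → ((a * b * (a - b)).roots.toFinset.erase 0).card < ℓ →
        ∃ lam : k, lam ≠ 0 ∧ ∀ j : ℕ, PolyCover (C lam * X ^ ℓ ^ j) a b) := by
  refine ⟨?_, ?_, ?_⟩
  · intro k _ a b q hB _ hC L L' K F _ _ _ _ _ _ _ _ _ _ _ hT hn
    exact mainP hT hB hC hn
  · intro k _ a b hB _ hs n lam h2 hk hl hc
    exact poly_pow hB hs h2 hk hl hc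
  · intro k _ _ a b hB h5 hs ℓ hℓ hd hS
    have h0 := hB.sep.ne_zero
    obtain ⟨lam, hl, hlam⟩ := exists_lam ((a * b * (a - b)).roots.toFinset.erase 0)
      (Finset.notMem_erase 0 _) hd hS
    -- the number of nonzero roots is at least four
    have h4 : 4 ≤ ((a * b * (a - b)).roots.toFinset.erase 0).card := by
      have h1 : (a * b * (a - b)).roots.toFinset.card = 5 := by
        rw [Multiset.toFinset_card_of_nodup (nodup_roots hB.sep),
          ← splits_iff_card_roots.1 hs] at *
        exact h5
      have := Finset.pred_card_le_card_erase (s := (a * b * (a - b)).roots.toFinset) (a := (0 : k))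
      omega
    refine ⟨lam, hl, fun j => poly_pow hB hs ?_ ?_ hl fun ξ hξ => ?_⟩
    · intro h
      have h1 := Nat.prime_two.dvd_of_dvd_pow h
      rw [Nat.prime_dvd_prime_iff_eq Nat.prime_two hℓ] at h1
      omega
    · rw [Nat.cast_pow]
      apply pow_ne_zero
      intro h
      have h1 : ((Nat.card k : ℕ) : k) = 0 := by
        letI := Fintype.ofFinite k
        rw [Nat.card_eq_fintype_card]
        exact FiniteField.cast_card_eq_zero k
      obtain ⟨m, hm⟩ := hd
      have hc1 : 1 ≤ Nat.card k := Nat.card_pos
      have h2 : Nat.card k = ℓ * m + 1 := by omega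
      rw [h2, Nat.cast_add, Nat.cast_mul, h, zero_mul, zero_add, Nat.cast_one] at h1
      exact one_ne_zero h1
    · by_cases hξ0 : ξ = 0
      · exact Or.inl hξ0
      · right
        intro p hp hpd y
        have e : p = ℓ := (Nat.prime_dvd_prime_iff_eq hp hℓ).1 (hp.dvd_of_dvd_pow hpd)
        rw [e]
        refine hlam ξ (Finset.mem_erase.2 ⟨hξ0, ?_⟩) y
        rw [Multiset.mem_toFinset, mem_roots h0]
        exact hξ

end Pool.Agent.Results.MP_72e2e6_nt.TowersRamifiedAtBadFibres
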