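import Pool.Agent.N876.KM.CountG
import Pool.Agent.Y709.Irr.Sq

/-!
The abelian varieties given by the characters of exact order `q - 1` of the twisted superelliptic curves
`y ^ (q - 1) = D(t) B(t) ∏ (x - β_i(t)) ^ (m_i)` over all the Galois extensions of `p`-power degree of `k(t)`,
with arbitrary ramification: for all but a proportion `2 / q` of the polynomials `D` of degree at
most `N` over `k`, over all these extensions at once the number of the zeros of the `L`-function at
`s = 1`, also over the constant extensions of `p`-power degree, has a bound of the type of Kida's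
formula by the anomalous ramified places.
-/

set_option autoImplicit false

open Polynomial

namespace Pool.Agent.Results.MP_72e2e6_nt.TwistsOverPExtensions

section generic

/-- The closed points of the affine line over the field `F`: monic irreducible polynomials. -/
abbrev ClosedPt (F : Type) [Field F] : Type := {P : F[X] // P.Monic ∧ Irreducible P}

variable {F : Type} [Field F]

/-- The degree of a closed point of the affine line over `F`. -/
noncomputable def ptDegree (P : ClosedPt F) : ℕ := P.1.natDegree

/-- The polynomial `c ∏ (x - b_i) ^ (a_i)` over `F`. -/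
noncomputable def fibre {n : ℕ} (c : F) (b : Fin n → F) (a : Fin n → ℕ) : F[X] :=
  C c * ∏ i, (X - C (b i)) ^ a i

/-- The norm to `k` of the value of the polynomial `g` over `F` at the closed point `Q` of the affine
line over the extension `F` of `k`. -/
noncomputable def normValue {k : Type} [Field k] [Algebra k F] (g : F[X]) (Q : ClosedPt F) : k :=
  Algebra.norm k (AdjoinRoot.mk Q.1 g)

/-- The Euler product: its coefficient of index `n` is that of the product of the factors of degree
at most `n`. -/
noncomputable def eulerProduct {ι : Type} (d : ι → ℕ) (f : ι → PowerSeries ℂ) : PowerSeries ℂ :=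
  PowerSeries.mk fun n => PowerSeries.coeff n (∏ᶠ (i : ι) (_ : d i ≤ n), f i)

end generic

section points

variable {k : Type} [Field k] {O : Type} [CommRing O] [Algebra k[X] O]

/-- The residue field of a closed point of `Spec O`, for an algebra `O` over `k[t]`. -/
def Res (𝔪 : MaximalSpectrum O) : Type := O ⧸ 𝔪.asIdeal

attribute [local instance] MaximalSpectrum.isMaximal in
noncomputable instance resField (𝔪 : MaximalSpectrum O) : Field (Res 𝔪) :=
  Ideal.Quotient.field 𝔪.asIdeal

/-- The value at `𝔪` of a polynomial in `t`. -/
noncomputable def value (𝔪 : MaximalSpectrum O) : k[X] →+* Res 𝔪 :=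
  (Ideal.Quotient.mk 𝔪.asIdeal).comp (algebraMap k[X] O)

noncomputable instance resAlgebra (𝔪 : MaximalSpectrum O) : Algebra k (Res 𝔪) :=
  ((value 𝔪).comp C).toAlgebra

variable (k) in
/-- The degree over `k` of a closed point of `Spec O`. -/
noncomputable def placeDegree (𝔪 : MaximalSpectrum O) : ℕ := Module.finrank k (Res 𝔪)

/-- The closed points of the product of `Spec O` and the `x`-line: a closed point of `Spec O` and a
closed point of the `x`-line over its residue field. -/
structure SurfacePt (O : Type) [CommRing O] : Type where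
  place : MaximalSpectrum O
  point : ClosedPt (Res place)

variable (k) in
/-- The degree of a closed point over `k`. -/
noncomputable def SurfacePt.deg (z : SurfacePt O) : ℕ :=
  placeDegree k z.place * ptDegree z.point

/-- A finite group `G`, a `p`-group, acts on the ring `O ⊇ k[t]` faithfully and with the ring of
invariants `k[t]`, so that `Spec O` is a Galois covering of the line with the group `G`. For the closed
points `𝔪` of `Spec O` above the closed point `𝔭` of the line the inertia group has `e(𝔭)` elements, and
`e(𝔭) = 1` if `𝔭` is not in the finite set `S` and not a zero of `B`. -/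
structure IsPCovering (p : ℕ) (B : k[X]) (S : Finset (MaximalSpectrum k[X]))
    (e : MaximalSpectrum k[X] → ℕ) (G O : Type) [Group G] [Finite G] [CommRing O]
    [Algebra k[X] O] [MulSemiringAction G O] : Prop where
  galois : IsGaloisGroup G k[X] O
  injective : Function.Injective (algebraMap k[X] O)
  pGroup : ∀ σ : G, ∃ n : ℕ, σ ^ p ^ n = 1
  index : ∀ (𝔪 : MaximalSpectrum O) (𝔭 : MaximalSpectrum k[X]),
    𝔪.asIdeal.comap (algebraMap k[X] O) = 𝔭.asIdeal → Nat.card (𝔪.asIdeal.inertia G) = e 𝔭
  unramified : ∀ 𝔭 : MaximalSpectrum k[X], 𝔭 ∉ S → B ∉ 𝔭.asIdeal → e 𝔭 = 1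

end points

section defs

variable {k : Type} [Field k]

variable (k) in
/-- The data `B(t)`, `β_i(t)`, `m_i` of a pencil `y ^ (q - 1) = B(t) ∏ (x - β_i(t)) ^ (m_i)` with
`r + 1` sections `β_i`. -/
structure Pencil (r : ℕ) : Type where
  coef : k[X]
  root : Fin (r + 1) → k[X]
  mult : Fin (r + 1) → ℕ

variable {r : ℕ} (A : Pencil k r)

/-- The degree `n` of the pencil in `x`: the sum of the multiplicities. -/
def Pencil.degX : ℕ := ∑ i, A.mult i

/-- The product of the differences `β_j - β_i` over `i < j`; its zeros are the collisions. -/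
noncomputable def Pencil.differences : k[X] :=
  ∏ i, ∏ j ∈ Finset.Ioi i, (A.root j - A.root i)

/-- The pencil has simple collisions, and its sections have the degree `d`: the differences of the
sections `β_i` have exactly the degree `d ≥ 1`, and their product is squarefree. The multiplicities `m_i`
are positive, `B` is not zero, and no zero of `B` has a multiplicity above `b`. -/
structure Pencil.Simple (d b : ℕ) : Prop where
  deg_pos : 0 < d
  root_deg : ∀ i, (A.root i).natDegree ≤ d
  diff_deg : ∀ i j, i ≠ j → (A.root i - A.root j).natDegree = d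
  diff_sq : Squarefree A.differences
  mult_pos : ∀ i, 0 < A.mult i
  coef_ne : A.coef ≠ 0
  coef_mult : ∀ P : k[X], Irreducible P → ¬ P ^ (b + 1) ∣ A.coef

/-- The polynomial `D B ∏ (x - β_i) ^ (m_i)` at a closed point of a covering of the line. -/
noncomputable def Pencil.at (D : k[X]) {O : Type} [CommRing O] [Algebra k[X] O]
    (𝔪 : MaximalSpectrum O) : (Res 𝔪)[X] :=
  fibre (value 𝔪 (D * A.coef)) (fun i => value 𝔪 (A.root i)) A.mult

/-- The `L`-function in the variable `T = (#k) ^ (-s)` of the `χ`-part of the abelian variety over the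
function field of `Spec O`: the product over the closed points `z` of `Spec O × 𝔸¹` of the factors
`1 - χ(N z) T ^ (deg z)`, where `N z` is the norm to `k` of the value of
`D(t) B(t) ∏ (x - β_i(t)) ^ (m_i)` at `z`, and `χ(0) = 0`. -/
noncomputable def Pencil.Lfun (D : k[X]) (O : Type) [CommRing O] [Algebra k[X] O]
    (χ : MulChar k ℂ) : PowerSeries ℂ :=
  eulerProduct (fun z : SurfacePt O => z.deg k)
    (fun z => 1 - PowerSeries.C (χ (normValue (A.at D z.place) z.point)) * PowerSeries.X ^ z.deg k)

/-- The product over the closed points `Q` of the `x`-line over the residue field of the closed point `𝔭`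
of the `t`-line of the factors `1 - χ(N Q) T ^ (deg Q)`, where `N Q` is the norm to `k` of the value of
`D B ∏ (x - β_i) ^ (m_i)` at `Q`. -/
noncomputable def Pencil.fibreProduct (D : k[X]) (𝔭 : MaximalSpectrum k[X]) (χ : MulChar k ℂ) :
    PowerSeries ℂ :=
  eulerProduct (fun Q : ClosedPt (Res 𝔭) => ptDegree Q)
    (fun Q => 1 - PowerSeries.C (χ (normValue (A.at D 𝔭) Q)) * PowerSeries.X ^ ptDegree Q)

/-- The point `𝔭` is not anomalous: the product `P(T)` of the inverses of these functions for all the
characters `χ` of exact order `n` is an integral polynomial, and `p` does not divide `P(1)`. Here `P(T)` is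
the numerator of the zeta function of the part of the fibre of these characters, so `P(1)` is the
number of the points over the residue field of the abelian variety. -/
def Pencil.NonAnomalous (p n : ℕ) (D : k[X]) (𝔭 : MaximalSpectrum k[X]) : Prop :=
  ∃ P : ℤ[X], ¬ (p : ℤ) ∣ P.eval 1 ∧
    (∏ᶠ (χ : MulChar k ℂ) (_ : orderOf χ = n), A.fibreProduct D 𝔭 χ) *
      ((P.map (Int.castRingHom ℂ) : ℂ[X]) : PowerSeries ℂ) = 1

/-- The number of the different values of the `β_i` at `𝔭`, minus one: the degree of the function of the
fibre. -/
noncomputable def Pencil.fibreDegree (𝔭 : MaximalSpectrum k[X]) : ℕ :=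
  (Set.range fun i => value 𝔭 (A.root i)).ncard - 1

/-- The power series `L` in `T` is the product of a polynomial and of the factors `1 - Q ζ T` for the
members `ζ` of the multiset `M`: it has zeros at the points `1 / (Q ζ)`, with multiplicity. -/
def Vanishes (Q : ℕ) (M : Multiset ℂ) (L : PowerSeries ℂ) : Prop :=
  ∃ H : ℂ[X], L = (((M.map fun ζ => 1 - C ((Q : ℂ) * ζ) * X).prod * H : ℂ[X]) : PowerSeries ℂ)

open Classical in
/-- The sum over the anomalous points `𝔭` in `S` which are not zeros of `D B` of
`(#G - #G / e(𝔭)) d(𝔭) n(𝔭)`, where `d(𝔭)` is the greatest power of `p` dividing the degree of `𝔭`, and `n(𝔭)`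
is the degree of the function of the fibre. -/
noncomputable def Pencil.bound (p n : ℕ) (D : k[X]) (S : Finset (MaximalSpectrum k[X]))
    (e : MaximalSpectrum k[X] → ℕ) (g : ℕ) : ℕ :=
  ∑ 𝔭 ∈ S, (if D * A.coef ∈ 𝔭.asIdeal ∨ A.NonAnomalous p n D 𝔭 then 0 else
    (g - g / e 𝔭) * (p ^ padicValNat p (placeDegree k 𝔭) * A.fibreDegree 𝔭))

variable (k) in
/-- The polynomials `D` of degree at most `N`. -/
def twists (N : ℕ) : Set k[X] := {D | D.natDegree ≤ N}

/-- The polynomials `D` of degree at most `N` for which there are a Galois covering of the line whose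
group `G` is a `p`-group, unramified outside of `S` and the zeros of `D B` and with inertia groups of order
`e(𝔭)`, and a character `χ` of exact order `q - 1` such that the `L`-function over the covering has more
zeros `1 / (#k ζ)`, where the order of `ζ` is a power of `p`, than the bound. -/
def Pencil.exceptional (p q N : ℕ) : Set k[X] :=
  {D | D ∈ twists k N ∧ ∃ (G O : Type) (_ : Group G) (_ : Finite G) (_ : CommRing O)
    (_ : Algebra k[X] O) (_ : MulSemiringAction G O) (S : Finset (MaximalSpectrum k[X]))
    (e : MaximalSpectrum k[X] → ℕ), IsPCovering p (D * A.coef) S e G O ∧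
      ∃ χ : MulChar k ℂ, orderOf χ = q - 1 ∧ ∃ M : Multiset ℂ, (∀ ζ ∈ M, ∃ n : ℕ, ζ ^ p ^ n = 1) ∧
        Vanishes (Nat.card k) M (A.Lfun D O χ) ∧
          A.bound p (q - 1) D S e (Nat.card G) < Multiset.card M}

theorem Lfun_eq (D : k[X]) (O : Type) [CommRing O] [Algebra k[X] O] (χ : MulChar k ℂ) :
    A.Lfun D O χ = Pool.Agent.Y709.Lay.LO O χ (D * A.coef) A.root A.mult := by
  unfold Pencil.Lfun Pool.Agent.Y709.Lay.LO eulerProduct Pool.Agent.W343.BSD.eulerProd
  ext n
  rw [PowerSeries.coeff_mk, PowerSeries.coeff_mk]
  congr 1
  let E : (Σ 𝔪 : MaximalSpectrum O, Pool.Agent.W313.Hyp.MI (Pool.Agent.Y709.Lay.RO k 𝔪)) ≃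
      SurfacePt O :=
    { toFun := fun z => ⟨z.1, z.2⟩
      invFun := fun z => ⟨z.place, z.point⟩
      left_inv := fun _ => rfl
      right_inv := fun _ => rfl }
  exact (finprod_comp_equiv E
    (f := fun z : SurfacePt O => ∏ᶠ (_ : z.deg k ≤ n),
      (1 - PowerSeries.C (χ (normValue (A.at D z.place) z.point)) * PowerSeries.X ^ z.deg k :
        PowerSeries ℂ))).symm

end defs

/-- **The rank conjecture for almost all Kummer twists over all the Galois extensions of `k(t)` of
`p`-power degree.**

Let `q` be a power of the prime number `p` and let `k` be a finite extension of the field with `q` elements.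
Let `β_0, …, β_r`, `r ≥ 1`, be polynomials in `k[t]` of degree at most `d ≥ 1` with simple collisions: all
differences `β_i - β_j` have exactly the degree `d`, and their product is squarefree. Let `m_i ≥ 1` be integers
with the sum `n < p`, and let `B ≠ 0` be a polynomial without zeros of a multiplicity above `b`; suppose
that `r n ≤ q - 1`, `n + b + 3 r + 4 ≤ q` and `4 (r + 1) ^ 2 ≤ q`. There is no condition on the degree `d` of the
sections.

For `D ≠ 0` in `k[t]` let `A_D` be the abelian variety over `k(t)` given by the characters of exact order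
`q - 1` of the group of roots of unity on the Jacobian of the curve
`y ^ (q - 1) = D(t) B(t) ∏ (x - β_i(t)) ^ (m_i)`. Let `L / k(t)` be a Galois extension whose degree is a power of
`p` and `O` the integral closure of `k[t]` in `L`. The function `Pencil.Lfun` is the part for the
character `χ` of the `L`-function of `A_D` over `L`, in `T = (#k) ^ (-s)`, except for possible Euler factors at `∞`
and at the zeros of `D B`, which have no zeros and poles with `|T| = 1 / #k`. The zeros `T = 1 / (#k ζ)` with
`ζ ^ (p ^ n) = 1` are those which give the order of vanishing at `s = 1` over the constant extension of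
degree `p ^ n`.

The theorem: of the polynomials `D` of degree at most `N`, where `N + f = (q - 1) V + ρ`,
`f = deg B + d n`, `2 r < ρ ≤ q - 2` and `V ≥ 8 (r + 1) ^ 2 (f + 1)` (so for all large `N` outside of `2 r + 1`
residue classes modulo `q - 1`), at least the proportion `1 - 2 / q` has the following property for ALL
the Galois extensions `L / k(t)` of `p`-power degree, of any Galois group and with any (wild)
ramification, at once. For every `χ` the order of vanishing at `s = 1`, even over all the layers of the
constant `ℤ_p`-extension of `L` together, is at most the sum of `(#G - #G / e(𝔭)) n(𝔭)`, `n(𝔭) ≤ r`, over the places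
of `k_∞(t)`, `k_∞` the `ℤ_p`-extension of `k`, above those ramified points `𝔭` of the line, not zeros
of `D B`, which are anomalous: the reduction of `A_D` at `𝔭` has a point of order `p` over the residue field.
The ramification at `∞`, at the zeros of `D B` and at the other points does not matter. So the rank of
`A_D(L)` is bounded by the anomalous ramification only, although the conductor and the genus of `L` are
unbounded; and over the maximal pro-`p` extension of `k(t)` which is unramified at the anomalous
points which are not zeros of `D B`, and its constant `ℤ_p`-extension, we have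
`rank A_D(L) = ord_{s = 1} L(A_D / L, s) = 0` for all finite layers `L`, the conjecture of Birch and
Swinnerton-Dyer (by Tate's inequality `rank ≤ ord`). The result `AbelianByPExtensions` in the starting files
concerns the extensions which are unramified outside of the zeros of `D B` and `∞`. -/
theorem result (k : Type) [Field k] [Finite k] (p : ℕ) [Fact p.Prime] [CharP k p] (a s q : ℕ)
    (ha : 0 < a) (hs : 0 < s) (hq : q = p ^ a) (hk : Nat.card k = q ^ s) (r : ℕ) (hr : 1 ≤ r)
    (A : Pencil k r) (d b : ℕ) (hA : A.Simple d b) (hchar : A.degX < p)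
    (hdeg : r * A.degX ≤ q - 1) (hn : A.degX + b + 3 * r + 4 ≤ q) (hr4 : 4 * (r + 1) ^ 2 ≤ q)
    (f : ℕ) (hf : f = A.coef.natDegree + d * A.degX) (V ρ N : ℕ)
    (hV : 8 * (r + 1) ^ 2 * (f + 1) ≤ V) (hρ : 2 * r < ρ) (hρq : ρ + 2 ≤ q)
    (hN : N + f = (q - 1) * V + ρ) :
    (twists k N).ncard = Nat.card k ^ (N + 1) ∧
      q * (A.exceptional p q N).ncard ≤ 2 * (twists k N).ncard := by
  classical
  have hFt : Fintype k := Fintype.ofFinite k
  have hkf : Fintype.card k = q ^ s := by rw [← Nat.card_eq_fintype_card]; exact hk
  have h0 : (twists k N).ncard = Nat.card k ^ (N + 1) :=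
    Pool.Agent.Y709.ncard_natDegree_le N
  refine ⟨h0, ?_⟩
  rw [h0]
  have hsimple := Pool.Agent.Y709.Irr.simple_of hA.deg_pos hA.root_deg hA.diff_deg hA.diff_sq
  have hinv : ∀ i : ℕ, i < ∑ l, A.mult l → ((i : k) + 1) ≠ 0 := by
    intro i hi h
    have h1 : ((i + 1 : ℕ) : k) = 0 := by rw [Nat.cast_succ, h]
    rw [CharP.cast_eq_zero_iff k p] at h1
    have h2 := Nat.le_of_dvd (Nat.succ_pos i) h1
    have h3 : ∑ l, A.mult l < p := hchar
    omega
  have h6 := Pool.Agent.Y709.IrrS.simple_boundS (k := k) hq ha hs hkf A.coef hA.coef_ne b
    hA.coef_mult hsimple hA.mult_pos hinv hdeg hn hr4 f ρ V N hf hρ hρq hV hN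
  refine le_trans (Nat.mul_le_mul_left q ?_) h6
  rw [← Set.coe_ofPred, Nat.card_coe_set_eq]
  refine Set.ncard_le_ncard ?_
    ((Pool.Agent.Y709.finite_natDegree_le N).subset fun D hD => hD.1)
  rintro D ⟨hD, G, O, i1, i2, i3, i4, i5, S, e, hO, χ, hχ, M, hM, ⟨H, hH⟩, hlt⟩
  refine ⟨hD, ?_⟩
  have hgal := hO.galois
  have hfs : FaithfulSMul k[X] O := (faithfulSMul_iff_algebraMap_injective _ _).2 hO.injective
  have hG : IsPGroup p G := hO.pGroup
  obtain ⟨g, hg⟩ := IsPGroup.iff_card.1 hG
  rw [Lfun_eq] at hH
  have h7 : ∑ l, A.mult l + b + 3 * r + 4 ≤ q := hn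
  exact Pool.Agent.N876.KM.fixed_of_exc ha hs hq hkf hr D A.coef A.root A.mult hA.mult_pos
    hA.root_deg (by omega) hchar G hg S e hO.index hO.unramified χ hχ M hM H hH hlt

end Pool.Agent.Results.MP_72e2e6_nt.TwistsOverPExtensions
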